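import Pool.Agent.Q35.TB.All

/-!
# Mazur's question for K3 surfaces and Calabi–Yau varieties: all smooth double covers of `(ℙ¹)ⁿ`
branched along divisors of multidegree `(4, …, 4)`, and all their quadratic twists

Let `K` be a number field and let `F` be a form over `K` of multidegree `(4, …, 4)` on `(ℙ¹)ⁿ` such
that the divisor `B : F = 0` is smooth. For `e ∈ Kˣ` let `X_e` be the double cover `w² = e F(x)` of
`(ℙ¹)ⁿ`, a Calabi–Yau variety of dimension `n`; for `n = 2` these are the K3 surfaces which are double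
covers of `ℙ¹ × ℙ¹` branched along a smooth curve of bidegree `(4, 4)`. For a place of `K` with
completion `M` and a point `(w, x)` of `X_e` over `M` let `Z_(w,x)` be the intersection of the Zariski
closures of the sets of `K`-points of `X_e` in the neighbourhoods of `(w, x)`. The ideal of `Z_(w,x)` is
`localIdeal σ (e F) w x`, where `σ` is the embedding of `K` in `M`: it consists of the polynomials in the
coordinates which vanish at all coordinate vectors `((∏ a_j)² W, a_j X_j)`, `a_j ∈ K`, of the
`K`-points in some neighbourhood of `(w, x)`.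

A plane through `x`, `F(x) ≠ 0`, in the directions of a set `J` of factors, `∅ ≠ J ≠ {1, …, n}`, is
special if on it the partial derivatives of `F` in the other directions are constant multiples of `F`.
For `n = 2` there are only finitely many special planes (lines of the two rulings). For `n ≠ 2` this is
assumed.

(1) For each `D` there is a finite set `T` of points of `(ℙ¹)ⁿ` over the algebraic closure such that
for ALL extensions `L` of `K` of degree at most `D`, ALL `e ∈ Lˣ`, ALL places of `L` and all `L`-points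
`P` of `X_e` outside the branch divisor, not over `T` and not on the special planes, `Z_P = X_e`: the
`L`-points of `X_e` in each neighbourhood of `P` are Zariski dense in `X_e`.

For all `e ∈ Kˣ` and all places of `K`:

(2) The ideals of the sets `Z_(w,x)` with `w ≠ 0` take only finitely many values.

(3) If Mazur's question has a positive answer for the branch divisor `B` and this place, then it has a
positive answer for `X_e` and this place.

(4) If `B` has only finitely many `K`-points (for `n = 2` it is a curve of genus `9`, and this is always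
true by Faltings's theorem, which is not used here), then Mazur's question has a positive answer for
`X_e` and this place.
-/

set_option autoImplicit false

namespace Pool.Agent.Results.MP_f9f755_nt.MultidegreeFourDoubleCovers

open MvPolynomial

/-- `F` is a form of degree `4` in each pair of variables `(j, 0)`, `(j, 1)`, the coordinates of the
`j`-th factor of `(ℙ¹)ⁿ`. -/
def IsForm {K : Type} [Field K] {n : ℕ} (F : MvPolynomial (Fin n × Fin 2) K) : Prop :=
  ∀ m ∈ F.support, ∀ j, m (j, 0) + m (j, 1) = 4

/-- `X` is the vector of coordinates of a point of `(ℙ¹)ⁿ`. -/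
def IsPoint {R : Type} [Zero R] {n : ℕ} (X : Fin n × Fin 2 → R) : Prop := ∀ j, ∃ b, X (j, b) ≠ 0

/-- The divisor `F = 0` in `(ℙ¹)ⁿ` is smooth. -/
def Smooth {K : Type} [Field K] {n : ℕ} (F : MvPolynomial (Fin n × Fin 2) K) : Prop :=
  ∀ x : Fin n × Fin 2 → AlgebraicClosure K, IsPoint x → ∃ p, aeval x (pderiv p F) ≠ 0

/-- The plane through `X` in the directions of `J` is special: on it the derivatives of `F` in the
other directions are constant multiples of `F`. -/
def Special {K : Type} [Field K] {n : ℕ} (F : MvPolynomial (Fin n × Fin 2) K)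
    (X : Fin n × Fin 2 → K) (J : Finset (Fin n)) : Prop :=
  ∀ k, k ∉ J → ∀ b, ∃ c : K, ∀ Y : Fin n × Fin 2 → K, (∀ j, j ∉ J → ∀ b, Y (j, b) = X (j, b)) →
    eval Y (pderiv (k, b) F) = c * eval Y F

/-- There are only finitely many special planes through `K`-points off the branch divisor. -/
def FewSpecial {K : Type} [Field K] {n : ℕ} (F : MvPolynomial (Fin n × Fin 2) K) : Prop :=
  ∀ J : Finset (Fin n), J.Nonempty → J ≠ Finset.univ →
    {P : Set (Fin n × Fin 2 → K) | ∃ X, eval X F ≠ 0 ∧ Special F X J ∧
      P = {Y | ∀ j, j ∉ J → ∃ a : K, a ≠ 0 ∧ ∀ b, Y (j, b) = a * X (j, b)}}.Finite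

/-- The ideal of the local Zariski closure at the point `(w, x)` of the set of the `K`-points of the
double cover `w² = F(x)`. The variable `none` is `w`. -/
def localIdeal {K M : Type} [Field K] [NontriviallyNormedField M] {n : ℕ} (σ : K →+* M)
    (F : MvPolynomial (Fin n × Fin 2) K) (w : M) (x : Fin n × Fin 2 → M) :
    Set (MvPolynomial (Option (Fin n × Fin 2)) K) :=
  {g | ∃ U ∈ nhds (w, x), ∀ (W : K) (X : Fin n × Fin 2 → K), IsPoint X → W ^ 2 = eval X F →
    (∃ a : Fin n → M, (∀ j, a j ≠ 0) ∧
      ((∏ j, a j) ^ 2 * σ W, fun p => a p.1 * σ (X p)) ∈ U) →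
    ∀ a : Fin n → K, eval (fun o => o.elim ((∏ j, a j) ^ 2 * W) fun p => a p.1 * X p) g = 0}

/-- The ideals of the local Zariski closures at the points `(w, x)` over `M` of the double cover
`w² = F(x)` with the property `P w`. -/
def localIdeals {K M : Type} [Field K] [NontriviallyNormedField M] {n : ℕ} (σ : K →+* M)
    (F : MvPolynomial (Fin n × Fin 2) K) (P : M → Prop) :
    Set (Set (MvPolynomial (Option (Fin n × Fin 2)) K)) :=
  {J | ∃ (w : M) (x : Fin n × Fin 2 → M), P w ∧ IsPoint x ∧ w ^ 2 = eval₂ σ x F ∧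
    J = localIdeal σ F w x}

/-- The ideals of the local Zariski closures of the set of the `K`-points of the divisor `F = 0` in
`(ℙ¹)ⁿ` at its points `x` over `M`. -/
def branchIdeals {K M : Type} [Field K] [NontriviallyNormedField M] {n : ℕ} (σ : K →+* M)
    (F : MvPolynomial (Fin n × Fin 2) K) : Set (Set (MvPolynomial (Fin n × Fin 2) K)) :=
  {J | ∃ x : Fin n × Fin 2 → M, IsPoint x ∧ eval₂ σ x F = 0 ∧
    J = {g | ∃ U ∈ nhds x, ∀ X : Fin n × Fin 2 → K, IsPoint X → eval X F = 0 →
      (∃ a : Fin n → M, (∀ j, a j ≠ 0) ∧ (fun p => a p.1 * σ (X p)) ∈ U) →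
      ∀ a : Fin n → K, eval (fun p => a p.1 * X p) g = 0}}

open Pool.Agent.Q35.TT Pool.Agent.Q35.TB

lemma hom_C_mul {K : Type} [Field K] {n : ℕ} {F : MvPolynomial (Fin n × Fin 2) K} (e : K)
    (hF : Hom4 F) : Hom4 (C e * F) := by
  intro m hm
  refine hF m ?_
  rw [mem_support_iff, coeff_C_mul] at hm
  exact mem_support_iff.2 (right_ne_zero_of_mul hm)

/-- The polynomials in the ideal of `X_e` vanish at its points. -/
lemma mem_local {K M : Type} [Field K] [CharZero K] [NontriviallyNormedField M] {n : ℕ}
    (σ : K →+* M) (F : MvPolynomial (Fin n × Fin 2) K) (hF : Hom4 F) (w : M)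
    (x : Fin n × Fin 2 → M) (g : MvPolynomial (Option (Fin n × Fin 2)) K)
    (hg : (X none ^ 2 - rename some F) ∣ g) : g ∈ localIdeal σ F w x := by
  refine ⟨Set.univ, Filter.univ_mem, ?_⟩
  intro W Y _ hW _ a
  obtain ⟨h, rfl⟩ := hg
  have h1 := (Pool.Agent.Q182.TT.CHF.chf K n F hF (fun _ => 0)).2.2.2.2.2.1 Y a
  rw [map_mul, map_sub, map_pow, eval_X, eval_rename]
  have h2 : (fun o : Option (Fin n × Fin 2) =>
      o.elim ((∏ j, a j) ^ 2 * W) fun p => a p.1 * Y p) ∘ some = fun p => a p.1 * Y p := by
    funext p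
    rfl
  rw [h2, h1]
  simp only [Option.elim_none]
  rw [mul_pow, hW]
  ring

lemma local_eq {K M : Type} [Field K] [NontriviallyNormedField M] {n : ℕ}
    (σ : K →+* M) (F : MvPolynomial (Fin n × Fin 2) K) (w : M) (x : Fin n × Fin 2 → M) :
    localIdeal σ F w x = locF σ F w x := rfl

/-- Two nonzero vectors of length two with vanishing determinant are proportional. -/
lemma prop_of {M : Type} [Field M] {u v : Fin 2 → M} (hu : ∃ b, u b ≠ 0) (hv : ∃ b, v b ≠ 0)
    (h : u 0 * v 1 = u 1 * v 0) : ∃ a : M, a ≠ 0 ∧ ∀ b, a * v b = u b := by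
  by_cases h0 : v 0 = 0
  · have h1 : v 1 ≠ 0 := by
      obtain ⟨b, hb⟩ := hv
      fin_cases b
      · exact absurd h0 hb
      · exact hb
    have hu0 : u 0 = 0 := by
      rw [h0, mul_zero] at h
      exact (mul_eq_zero.1 h).resolve_right h1
    have hu1 : u 1 ≠ 0 := by
      obtain ⟨b, hb⟩ := hu
      fin_cases b
      · exact absurd hu0 hb
      · exact hb
    refine ⟨u 1 / v 1, div_ne_zero hu1 h1, fun b => ?_⟩
    fin_cases b
    · simp [h0, hu0]
    · simp [div_mul_cancel₀ _ h1]
  · have hu0 : u 0 ≠ 0 := by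
      intro hu0
      rw [hu0, zero_mul] at h
      have hu1 : u 1 = 0 := (mul_eq_zero.1 h.symm).resolve_right h0
      obtain ⟨b, hb⟩ := hu
      fin_cases b
      · exact hb hu0
      · exact hb hu1
    refine ⟨u 0 / v 0, div_ne_zero hu0 h0, fun b => ?_⟩
    fin_cases b
    · simp [div_mul_cancel₀ _ h0]
    · show u 0 / v 0 * v 1 = u 1
      field_simp
      linear_combination h

/-- Finitely many points have finitely many local Zariski closures. -/
lemma branch_fin {K M : Type} [Field K] [NontriviallyNormedField M] {n : ℕ} (σ : K →+* M)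
    (F : MvPolynomial (Fin n × Fin 2) K) (B : Finset (Fin n × Fin 2 → K))
    (hB : ∀ Y, IsPoint Y → eval Y F = 0 → ∃ t ∈ B, ∃ c : Fin n → K, Y = fun p => c p.1 * t p) :
    (branchIdeals σ F).Finite := by
  classical
  let I : Set (Fin n × Fin 2 → K) → Set (MvPolynomial (Fin n × Fin 2) K) :=
    fun S => {g | ∀ Y, IsPoint Y → eval Y F = 0 → ∀ t ∈ S, ∀ c : Fin n → K,
      (Y = fun p => c p.1 * t p) → ∀ a : Fin n → K, eval (fun p => a p.1 * Y p) g = 0}
  refine ((B.finite_toSet.finite_subsets).image I).subset ?_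
  rintro J ⟨x, hx, -, rfl⟩
  let S : Set (Fin n × Fin 2 → K) :=
    {t | t ∈ B ∧ ∀ j, x (j, 0) * σ (t (j, 1)) = x (j, 1) * σ (t (j, 0))}
  refine ⟨S, fun t ht => ht.1, ?_⟩
  ext g
  constructor
  · intro hg
    refine ⟨{y | ∀ t ∈ B, t ∉ S → ∃ j, y (j, 0) * σ (t (j, 1)) ≠ y (j, 1) * σ (t (j, 0))}, ?_, ?_⟩
    · rw [Set.ofPred_forall]
      simp only [Set.ofPred_forall]
      refine (Filter.biInter_finset_mem B).2 fun t ht => ?_
      by_cases htS : t ∈ S
      · simp [htS]
      · have h1 : ∃ j, x (j, 0) * σ (t (j, 1)) ≠ x (j, 1) * σ (t (j, 0)) := by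
          by_contra hcon
          push Not at hcon
          exact htS ⟨ht, hcon⟩
        obtain ⟨j, hj⟩ := h1
        have h2 : IsOpen {y : Fin n × Fin 2 → M |
            y (j, 0) * σ (t (j, 1)) ≠ y (j, 1) * σ (t (j, 0))} :=
          isOpen_ne_fun (by fun_prop) (by fun_prop)
        refine Filter.mem_of_superset (h2.mem_nhds hj) fun y hy => ?_
        simp only [Set.mem_iInter]
        intro _
        exact ⟨j, hy⟩
    · intro Y hY hYF ha a
      obtain ⟨b, hb, hbU⟩ := ha
      obtain ⟨t, ht, c, hc⟩ := hB Y hY hYF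
      by_cases htS : t ∈ S
      · exact hg Y hY hYF t htS c hc a
      · obtain ⟨j, hj⟩ := hbU t ht htS
        refine absurd ?_ hj
        simp only [hc, map_mul]
        ring
  · rintro ⟨U, hU, hg⟩ Y hY hYF t ht c hc a
    refine hg Y hY hYF ?_ a
    have h1 : ∀ j, ∃ b : M, b ≠ 0 ∧ ∀ i, b * σ (Y (j, i)) = x (j, i) := by
      intro j
      refine prop_of (u := fun i => x (j, i)) (v := fun i => σ (Y (j, i))) (hx j) ?_ ?_
      · obtain ⟨b, hb⟩ := hY j
        exact ⟨b, (map_ne_zero σ).2 hb⟩
      · have h2 := ht.2 j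
        simp only [hc, map_mul]
        linear_combination σ (c j) * h2
    choose b hb hb' using h1
    refine ⟨b, hb, ?_⟩
    have h2 : (fun p : Fin n × Fin 2 => b p.1 * σ (Y p)) = x := by
      funext p
      exact hb' p.1 p.2
    rw [h2]
    exact mem_of_mem_nhds hU

/-- **Mazur's question for double covers of `(ℙ¹)ⁿ` branched along smooth divisors of multidegree
`(4, …, 4)` and all their quadratic twists.** -/
theorem result (K : Type) [Field K] [NumberField K] (n : ℕ)
    (F : MvPolynomial (Fin n × Fin 2) K) (hF : IsForm F) (hs : Smooth F) :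
    -- (1) one finite set for all extensions of bounded degree, all twists and all places
    (∀ D : ℕ, ∃ T : Set (Fin n × Fin 2 → AlgebraicClosure K), T.Finite ∧
      ∀ (L : Type) [Field L] [NumberField L] [Algebra K L], Module.finrank K L ≤ D →
      (n = 2 ∨ FewSpecial (map (algebraMap K L) F)) → ∀ e : L, e ≠ 0 →
      ∀ (M : Type) [NontriviallyNormedField M] [CompleteSpace M] (σ : L →+* M), DenseRange σ →
      ∀ (W : L) (X : Fin n × Fin 2 → L), IsPoint X → W ≠ 0 →
        W ^ 2 = eval X (C e * map (algebraMap K L) F) →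
        (∀ φ : L →ₐ[K] AlgebraicClosure K, ∀ t ∈ T, ∀ a : Fin n → AlgebraicClosure K,
          (fun p => φ (X p)) ≠ fun p => a p.1 * t p) →
        (∀ J : Finset (Fin n), J.Nonempty → J ≠ Finset.univ →
          ¬ Special (map (algebraMap K L) F) X J) →
        localIdeal σ (C e * map (algebraMap K L) F) (σ W) (fun p => σ (X p)) =
          {g | MvPolynomial.X none ^ 2 - rename some (C e * map (algebraMap K L) F) ∣ g}) ∧
    -- all twists and all places of `K`
    ((n = 2 ∨ FewSpecial F) → ∀ e : K, e ≠ 0 →
      ∀ (M : Type) [NontriviallyNormedField M] [CompleteSpace M] (σ : K →+* M), DenseRange σ →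
      -- (2) the points with nonzero `w`
      (localIdeals σ (C e * F) (fun w => w ≠ 0)).Finite ∧
      -- (3) reduction to the branch divisor
      ((branchIdeals σ F).Finite → (localIdeals σ (C e * F) (fun _ => True)).Finite) ∧
      -- (4) all points, if the branch divisor has finitely many `K`-points
      ((∃ B : Finset (Fin n × Fin 2 → K), ∀ X, IsPoint X → eval X F = 0 →
          ∃ t ∈ B, ∃ a : Fin n → K, X = fun p => a p.1 * t p) →
        (localIdeals σ (C e * F) (fun _ => True)).Finite)) := by
  have hfs : ∀ (L : Type) [Field L] [CharZero L] (G : MvPolynomial (Fin n × Fin 2) L), Hom4 G →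
      SmoothF G → (n = 2 ∨ FewSpecial G) → FinSpecF G := by
    intro L _ _ G hG hGs h
    rcases h with h | h
    · subst h
      exact fsf2 L G hG hGs
    · exact h
  constructor
  · intro D
    obtain ⟨T, hT, h⟩ := mzx2 K n F hF hs D
    refine ⟨T, hT, ?_⟩
    intro L _ _ _ hL hn e he M _ _ σ hσ W X hX hW hWX hXT hXS
    have : Algebra.IsAlgebraic K L := by
      have : FiniteDimensional K L := Module.Finite.of_restrictScalars_finite ℚ K L
      infer_instance
    obtain ⟨h4, hs4, -⟩ := exf2 K L n F hF
    have hFL : FinSpecF (ex L F) := hfs L _ h4 (hs4.1 hs) hn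
    have h5 := h L hL hFL e he M σ hσ W X hX hW hWX hXT hXS
    refine Set.Subset.antisymm (fun g hg => h5 g ?_) fun g hg => ?_
    · rw [← local_eq]
      exact hg
    · exact mem_local σ _ (hom_C_mul e h4) _ _ g hg
  · intro hn e he M _ _ σ hσ
    have hFS : FinSpecF F := hfs K F hF hs hn
    obtain ⟨T, hT, h⟩ := mzf2 K n F hF hs hFS
    obtain ⟨-, h2, h3⟩ := h e he M σ hσ
    have h3' : (branchIdeals σ F).Finite → (localIdeals σ (C e * F) (fun _ => True)).Finite := by
      intro hB
      refine (h3 (hB.subset ?_)).subset ?_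
      · rintro _ ⟨x, hx, hx', rfl⟩
        exact ⟨x, hx, hx', rfl⟩
      · rintro _ ⟨w, x, -, hx, hwx, rfl⟩
        exact ⟨w, x, hx, hwx, rfl⟩
    refine ⟨?_, h3', ?_⟩
    · refine h2.subset ?_
      rintro _ ⟨w, x, hw, -, hwx, rfl⟩
      exact ⟨w, x, hw, hwx, rfl⟩
    · rintro ⟨B, hB⟩
      exact h3' (branch_fin σ F B hB)

end Pool.Agent.Results.MP_f9f755_nt.MultidegreeFourDoubleCovers
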