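import Pool.Agent.U207.MZ.Proj

/-!
# MP_f9f755_nt: reduction over `ℚ` to smooth hypersurfaces of `P^n × E^m` with one rational fibre

Let `E` be the Fermat cubic `u^3 + v^3 = w^3` and `t_0 = (0 : 1 : 1)`.

**Theorem.** 1. For all forms `P_i` of degree `d` over `ℚ` in `n + 1` variables and all `m ≥ n + 2` there is
a smooth hypersurface `Y = {G = 0}` of `P^n × E^m` over `ℚ`, of multidegree `(2 d; 2, …, 2)`, whose rational
points are the points `(x, t_0, …, t_0)` with `P_i(x) = 0` for all `i`.

2. Let `L` be a completion of `ℚ` (any nontrivially normed field over `ℚ`) and let `δ(n)` be even and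
`≥ 4` for all `n`. Q1 for `K = ℚ` and `L` (for all irreducible projective varieties, with arbitrary
singularities) holds if and only if for all smooth hypersurfaces `Y` of `P^n × E^(n + 2)`, for all `n`, of
multidegree `(δ(n); 2, …, 2)`, whose rational points are all in the fibre over `(t_0, …, t_0)`, the local
Zariski closures of `Y(ℚ)` at the `L`-points of all affine charts of `Y` take only finitely many values.

For `δ = 4` these are smooth families of quartics over the abelian varieties `E^(n + 2)` with finite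
Mordell-Weil groups; for `δ(n) ≥ n + 2` the canonical bundle of `Y` is ample.
-/

set_option autoImplicit false

namespace Pool.Agent.Results.MP_f9f755_nt.OneRationalFibre

open MvPolynomial Pool.Agent.U207.MZ

theorem result :
    -- 1. smooth hypersurfaces with the rational points of a projective variety
    (∀ (n m d : ℕ) (ι : Type) [Fintype ι] (P : ι → MvPolynomial (Fin (n + 1)) ℚ), n + 2 ≤ m →
      (∀ i, (P i).IsHomogeneous d) →
      ∃ G : MvPolynomial (Co n m) ℚ, IsMulti (2 * d) 2 G ∧ SmoothHyp G ∧
        ∀ z : Co n m → ℚ, IsPt z → ((∀ i, aeval z (eqs G i) = 0) ↔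
          (∀ k, z (Sum.inr (k, 0)) = 0 ∧ z (Sum.inr (k, 2)) = z (Sum.inr (k, 1))) ∧
            ∀ i, aeval (fun j => z (Sum.inl j)) (P i) = 0)) ∧
    -- 2. the reduction of Q1 for `K = ℚ`
    ∀ (L : Type) [NontriviallyNormedField L] (σ : ℚ →+* L) (δ : ℕ → ℕ),
      (∀ n, Even (δ n) ∧ 4 ≤ δ n) →
      (Q1Proj σ ↔ ∀ (n : ℕ) (G : MvPolynomial (Co n (n + 2)) ℚ),
        IsMulti (δ n) 2 G → SmoothHyp G → OneFibre G → ∀ i c, FinLoc σ (chartEqs G i c)) :=
  ⟨fun _ _ _ _ _ _ hm hP => exists_hyp hm hP, fun _ _ _ δ hδ => q1Proj_iff δ hδ⟩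

end Pool.Agent.Results.MP_f9f755_nt.OneRationalFibre
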