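import Pool.Agent.U899.QA.Sim

/-!
# Mazur's question at several places simultaneously: K3 surfaces, uniformly in all extensions of bounded
degree and all quadratic twists

Let `K` be a number field, let `F` be a form of bidegree `(4, 4)` over `K` such that the curve
`F = 0` in `ℙ¹ × ℙ¹` is smooth. For a number field `L` over `K` and `e ∈ Lˣ` let `X_e : w² = e F` be the
corresponding K3 surface over `L`, a double cover of `ℙ¹ × ℙ¹`.

Mazur's question is about the sets `Z_x`, the intersections of the Zariski closures of the sets of the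
rational points in the neighbourhoods of a local point `x`, at one place. Here we consider a finite
nonempty set `S` of `p`-adic places of degree one of `L` (embeddings of `L` into `ℚ_p`) over different
primes `p`, with or without a real place, and families `x = (x_v)` of points of the affine space over
the fields `L_v`. Let `Z_x` be the intersection of the Zariski closures of the sets of the `L`-points
of `X_e` (in an affine chart) in the neighbourhoods of `x` in the product over `v ∈ S`.

For each `D` there are, in each affine chart, a finite set `T` of points of `ℙ¹ × ℙ¹` and finitely many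
lines of the two rulings, over the algebraic closure of `K`, the lines independent of `D`, such that for
ALL extensions `L` of `K` of degree at most `D`, ALL `e ∈ Lˣ`, ALL these sets `S` of places of `L` and
ALL families `x`: either `Z_x = X_e`, or there is a neighbourhood of `x` such that all the `L`-points of
`X_e` in it lie on the branch curve, over `T` or over one of the lines. In particular `Z_x = X_e` for
all `L`-points `x` which do not lie there, and `Z_x ≠ X_e` only if all the `L`-points near `x` are on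
the finitely many curves over these lines, on the branch curve, or over `T`.

In the starting result `MP_f9f755_nt.MultidegreeFourDoubleCovers` this is proved for one place. For
several places one needs that the closure of the set of the `L`-points in the product is a neighbourhood
of the `L`-points off the exceptional set, and that the exceptional set does not depend on `L`.
-/

set_option autoImplicit false

namespace Pool.Agent.Results.MP_f9f755_nt.SeveralPlaces

open MvPolynomial

/-- `F` is a form of bidegree `(4, 4)` in the coordinates `(j, 0)`, `(j, 1)` of the two factors. -/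
def IsForm {K : Type} [Field K] (F : MvPolynomial (Fin 2 × Fin 2) K) : Prop :=
  ∀ m ∈ F.support, ∀ j, m (j, 0) + m (j, 1) = 4

/-- The curve `F = 0` in `ℙ¹ × ℙ¹` is smooth. -/
def Smooth {K : Type} [Field K] (F : MvPolynomial (Fin 2 × Fin 2) K) : Prop :=
  ∀ x : Fin 2 × Fin 2 → AlgebraicClosure K, (∀ j, ∃ b, x (j, b) ≠ 0) → ∃ p, aeval x (pderiv p F) ≠ 0

/-- The equation in the affine chart in which the coordinates `(j, ε j)` are equal to one. -/
noncomputable def chart {K : Type} [Field K] (F : MvPolynomial (Fin 2 × Fin 2) K)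
    (ε : Fin 2 → Fin 2) : MvPolynomial (Fin 2) K :=
  aeval (fun p : Fin 2 × Fin 2 => if p.2 = ε p.1 then 1 else X p.1) F

/-- The point `(x, w)` lies on the double cover `w² = f(x)`. -/
def OnCover {F : Type} [Field F] (f : MvPolynomial (Fin 2) F) (P : (Fin 2 → F) × F) : Prop :=
  P.2 ^ 2 = eval P.1 f

/-- The image of a point under an embedding of fields. -/
def image {K F : Type} [Field K] [Field F] (φ : K →+* F) (P : (Fin 2 → K) × K) : (Fin 2 → F) × F :=
  (fun j => φ (P.1 j), φ P.2)

/-- The images of a point at several `p`-adic places. -/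
noncomputable def images {L : Type} [Field L] {ι : Type} {p : ι → ℕ} [∀ v, Fact (p v).Prime]
    (σ : ∀ v, L →+* ℚ_[p v]) (P : (Fin 2 → L) × L) : ∀ v, (Fin 2 → ℚ_[p v]) × ℚ_[p v] :=
  fun v => image (σ v) P

/-- The images of a point at several `p`-adic places and a real place. -/
noncomputable def imagesReal {L : Type} [Field L] {ι : Type} {p : ι → ℕ} [∀ v, Fact (p v).Prime]
    (σ : ∀ v, L →+* ℚ_[p v]) (τ : L →+* ℝ) (P : (Fin 2 → L) × L) :
    ((Fin 2 → ℝ) × ℝ) × ∀ v, (Fin 2 → ℚ_[p v]) × ℚ_[p v] :=
  (image τ P, fun v => image (σ v) P)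

/-- The ideal of the set `Z_x`: the polynomials in the coordinates `x` and `w` (the variable `none`)
which vanish at the `L`-points `Q` of the surface `w² = f(x)` with `em Q` in some neighbourhood of
`x`. -/
def localIdeal {L Y : Type} [Field L] [TopologicalSpace Y] (f : MvPolynomial (Fin 2) L)
    (em : (Fin 2 → L) × L → Y) (x : Y) : Set (MvPolynomial (Option (Fin 2)) L) :=
  {g | ∃ U ∈ nhds x, ∀ Q, OnCover f Q → em Q ∈ U → eval (fun o => o.elim Q.2 Q.1) g = 0}

/-- The ideal of the surface `w² = f(x)`. -/
def ideal {L : Type} [Field L] (f : MvPolynomial (Fin 2) L) : Set (MvPolynomial (Option (Fin 2)) L) :=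
  {g | (X none ^ 2 - rename some f) ∣ g}

/-- `P` is a point off the branch curve, the set `T` and the lines `x_j = c`, `c ∈ E j`. -/
def IsGood {K L : Type} [Field K] [Field L] [Algebra K L] (T : Set (Fin 2 → AlgebraicClosure K))
    (E : Fin 2 → Set (AlgebraicClosure K)) (φ : L →ₐ[K] AlgebraicClosure K) (P : (Fin 2 → L) × L) :
    Prop :=
  P.2 ≠ 0 ∧ (fun j => φ (P.1 j)) ∉ T ∧ ∀ j, φ (P.1 j) ∉ E j

lemma dvd_vanish {L : Type} [Field L] (f : MvPolynomial (Fin 2) L)
    {g : MvPolynomial (Option (Fin 2)) L} (hg : (X none ^ 2 - rename some f) ∣ g)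
    {Q : (Fin 2 → L) × L} (hQ : OnCover f Q) : eval (fun o => o.elim Q.2 Q.1) g = 0 := by
  obtain ⟨h, rfl⟩ := hg
  have hQ' : Q.2 ^ 2 = eval Q.1 f := hQ
  rw [map_mul, map_sub, map_pow, eval_X, Pool.Agent.Q35.TT.eval_opt]
  simp only [Option.elim_none]
  rw [hQ', sub_self, zero_mul]

/-- The sets `Z_x` at a family `x` and at a point near `x`. -/
lemma ideal_of {L Y : Type} [Field L] [TopologicalSpace Y] (f : MvPolynomial (Fin 2) L)
    (em : (Fin 2 → L) × L → Y) (x : Y) (G : (Fin 2 → L) × L → Prop)
    (h : ∀ P, OnCover f P → G P → ∀ U ∈ nhds (em P), ∀ g : MvPolynomial (Option (Fin 2)) L,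
      (∀ Q, OnCover f Q → em Q ∈ U → eval (fun o => o.elim Q.2 Q.1) g = 0) →
        (X none ^ 2 - rename some f) ∣ g) :
    localIdeal f em x = ideal f ∨ ∃ U ∈ nhds x, ∀ Q, OnCover f Q → em Q ∈ U → ¬ G Q := by
  by_cases hx : ∃ U ∈ nhds x, ∀ Q, OnCover f Q → em Q ∈ U → ¬ G Q
  · exact Or.inr hx
  · refine Or.inl (Set.ext fun g => ⟨?_, fun hg => ⟨Set.univ, Filter.univ_mem, fun Q hQ _ =>
      dvd_vanish f hg hQ⟩⟩)
    rintro ⟨U, hU, hg⟩
    push Not at hx
    obtain ⟨Q, hQ, hQU, hQG⟩ := hx (interior U) (interior_mem_nhds.2 hU)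
    exact h Q hQ hQG (interior U) (isOpen_interior.mem_nhds hQU) g fun Q' hQ' hQU' =>
      hg Q' hQ' (interior_subset hQU')

/-- **Mazur's question at several places simultaneously, for K3 double covers of `ℙ¹ × ℙ¹`.** -/
theorem result (K : Type) [Field K] [NumberField K] (F : MvPolynomial (Fin 2 × Fin 2) K)
    (hF : IsForm F) (hs : Smooth F) (ε : Fin 2 → Fin 2) :
    -- the lines
    ∃ E : Fin 2 → Set (AlgebraicClosure K), (∀ j, (E j).Finite) ∧
      -- the degree and the finite set
      ∀ D : ℕ, ∃ T : Set (Fin 2 → AlgebraicClosure K), T.Finite ∧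
      -- all extensions of degree at most `D` and all quadratic twists
      ∀ (L : Type) [Field L] [NumberField L] [Algebra K L], Module.finrank K L ≤ D →
      ∀ e : L, e ≠ 0 → ∀ φ : L →ₐ[K] AlgebraicClosure K,
        -- all finite sets of places
        ∀ (ι : Type) [Finite ι] [Nonempty ι] (p : ι → ℕ) [∀ v, Fact (p v).Prime],
          Function.Injective p → ∀ σ : ∀ v, L →+* ℚ_[p v],
            -- all families of local points
            (∀ x, localIdeal (C e * map (algebraMap K L) (chart F ε)) (images σ) x =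
                ideal (C e * map (algebraMap K L) (chart F ε)) ∨
              ∃ U ∈ nhds x, ∀ Q, OnCover (C e * map (algebraMap K L) (chart F ε)) Q →
                images σ Q ∈ U → ¬ IsGood T E φ Q) ∧
            ∀ (τ : L →+* ℝ) (x : ((Fin 2 → ℝ) × ℝ) × ∀ v, (Fin 2 → ℚ_[p v]) × ℚ_[p v]),
              localIdeal (C e * map (algebraMap K L) (chart F ε)) (imagesReal σ τ) x =
                ideal (C e * map (algebraMap K L) (chart F ε)) ∨
              ∃ U ∈ nhds x, ∀ Q, OnCover (C e * map (algebraMap K L) (chart F ε)) Q →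
                imagesReal σ τ Q ∈ U → ¬ IsGood T E φ Q := by
  obtain ⟨h1, h2, -⟩ := Pool.Agent.Q182.TT.CHF.chf K 2 F hF ε
  obtain ⟨E, hE, h⟩ := Pool.Agent.U899.QA.uopn' K (Pool.Agent.Q35.TT.ch F ε) h1 (h2 hs)
  refine ⟨E, hE, fun D => ?_⟩
  obtain ⟨T, hT, h⟩ := h D
  refine ⟨T, hT, ?_⟩
  intro L _ _ _ hL e he φ ι _ _ p _ hp σ
  have hFK : FiniteDimensional K L := FiniteDimensional.right ℚ K L
  obtain ⟨k1, k2, -⟩ := (Pool.Agent.Q35.TB.exf2 K L 2 0 (fun m hm => by simp at hm)).2.2.2.2
    (Pool.Agent.Q35.TT.ch F ε) h1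
  obtain ⟨k3, k4, -⟩ := Pool.Agent.Q35.TB.inv2 L 2
    (Pool.Agent.Q35.TB.ex L (Pool.Agent.Q35.TT.ch F ε)) k1 e he
  have hsL := k4 (k2.1 (h2 hs))
  refine ⟨fun x => ?_, fun τ x => ?_⟩
  · refine ideal_of _ (images σ) x (IsGood T E φ) fun P hP hG U hU g hg => ?_
    exact Pool.Agent.U899.QA.sim_p _ k3 hsL hG.1 hP σ
      (h L hL e he φ P.1 P.2 hG.1 hP hG.2.1 hG.2.2 ι p hp σ).1 hU g hg
  · refine ideal_of _ (imagesReal σ τ) x (IsGood T E φ) fun P hP hG U hU g hg => ?_
    exact Pool.Agent.U899.QA.sim_r _ k3 hsL hG.1 hP σ τ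
      ((h L hL e he φ P.1 P.2 hG.1 hP hG.2.1 hG.2.2 ι p hp σ).2 τ) hU g hg

end Pool.Agent.Results.MP_f9f755_nt.SeveralPlaces
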