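import Pool.Agent.U199.TW.All

/-!
# Mazur's question for Borcea–Voisin threefolds and other twisted products of curves of genus one,
K3 surfaces and Calabi–Yau varieties (helper199)

Let `K` be a number field. For `b = 1, …, r` let `F_b` be a form over `K` of multidegree `(4, …, 4)` on
`(ℙ¹)^(m_b)` such that the divisor `B_b : F_b = 0` is smooth. For `e ∈ Kˣ` let `X_e` be the double cover

  `w² = e F_1(x_1) ⋯ F_r(x_r)`   of   `(ℙ¹)^(m_1) × ⋯ × (ℙ¹)^(m_r)`.

It is the quotient of the product of the double covers `Y_b : w_b² = F_b(x_b)` (for `e = 1`) by a group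
`(ℤ/2)^(r-1)` of products of the covering involutions, a singular Calabi–Yau variety: `Y_b` is a curve
of genus one for `m_b = 1`, a K3 surface for `m_b = 2`, a Calabi–Yau variety in general. For `r = 2`
and `(m_1, m_2) = (1, 2)` the varieties `X_e` are models of the Borcea–Voisin threefolds
`(C × S)/±`, for `(2, 2)` of the fourfolds `(S × S')/±`, for `(1, 1)` of the Kummer surfaces
`(C × C')/±`. The branch divisor of `X_e` is singular for `r ≥ 2`, and the points of `X_e` do not lift
to rational points of the product of the `Y_b`, but to a product of quadratic twists which depend on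
the point.

For a place of `K` with completion `M` and a point `(w, x)` of `X_e` over `M` let `Z_(w,x)` be the
intersection of the Zariski closures of the sets of `K`-points of `X_e` in the neighbourhoods of
`(w, x)`. Its ideal is `localIdeal σ (e ∏ F_b) w x`, where `σ` is the embedding of `K` in `M`.

If `m_b ≥ 3` we assume that `F_b` has only finitely many special planes: a plane through `x_b` in the
directions of a set `J` of factors, `∅ ≠ J ≠ {1, …, m_b}`, is special if on it the partial derivatives
of `F_b` in the other directions are constant multiples of `F_b`. For `m_b ≤ 2` this is always true.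

(1) For each `D` there are finite sets `T_b` of points of `(ℙ¹)^(m_b)` over the algebraic closure such
that for ALL extensions `L` of `K` of degree at most `D`, ALL `e ∈ Lˣ`, ALL places of `L` and all
`L`-points `P = (w, x_1, …, x_r)` of `X_e` with `w ≠ 0`, `x_b` not in `T_b` and not on the special planes
of `F_b`, `Z_P = X_e`: the `L`-points of `X_e` in each neighbourhood of `P` are Zariski dense in `X_e`.

For all `e ∈ Kˣ` and all places of `K`:

(2) The ideals of the sets `Z_(w,x)` with `w ≠ 0` take only finitely many values.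

(3) If Mazur's question has a positive answer for the divisors `B_b` with `m_b ≥ 2` and this place,
then it has a positive answer for `X_e` and this place.

(4) If the divisors `B_b` with `m_b ≥ 2` have only finitely many `K`-points (for `m_b = 2` they are
curves of genus `9`, and this is always true by Faltings's theorem, which is not used here), then
Mazur's question has a positive answer for `X_e` and this place.
-/

set_option autoImplicit false

namespace Pool.Agent.Results.MP_f9f755_nt.TwistedProducts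

open MvPolynomial

/-- `F` is a form of degree `4` in each pair of variables `(j, 0)`, `(j, 1)`, the coordinates of the
`j`-th factor of `(ℙ¹)ⁿ`. -/
def IsForm {K : Type} [Field K] {n : ℕ} (F : MvPolynomial (Fin n × Fin 2) K) : Prop :=
  ∀ m ∈ F.support, ∀ j, m (j, 0) + m (j, 1) = 4

/-- `X` is the vector of coordinates of a point of the product of copies of `ℙ¹` indexed by `ι`. -/
def IsPoint {R ι : Type} [Zero R] (X : ι × Fin 2 → R) : Prop := ∀ j, ∃ b, X (j, b) ≠ 0

/-- The divisor `F = 0` in `(ℙ¹)ⁿ` is smooth. -/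
def Smooth {K : Type} [Field K] {n : ℕ} (F : MvPolynomial (Fin n × Fin 2) K) : Prop :=
  ∀ x : Fin n × Fin 2 → AlgebraicClosure K, IsPoint x → ∃ p, aeval x (pderiv p F) ≠ 0

/-- The plane through `X` in the directions of `J` is special: on it the derivatives of `F` in the
other directions are constant multiples of `F`. -/
def Special {K : Type} [Field K] {n : ℕ} (F : MvPolynomial (Fin n × Fin 2) K)
    (X : Fin n × Fin 2 → K) (J : Finset (Fin n)) : Prop :=
  ∀ k, k ∉ J → ∀ b, ∃ c : K, ∀ Y : Fin n × Fin 2 → K, (∀ j, j ∉ J → ∀ b, Y (j, b) = X (j, b)) →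
    eval Y (pderiv (k, b) F) = c * eval Y F

/-- There are only finitely many special planes through `K`-points off the divisor `F = 0`. -/
def FewSpecial {K : Type} [Field K] {n : ℕ} (F : MvPolynomial (Fin n × Fin 2) K) : Prop :=
  ∀ J : Finset (Fin n), J.Nonempty → J ≠ Finset.univ →
    {P : Set (Fin n × Fin 2 → K) | ∃ X, eval X F ≠ 0 ∧ Special F X J ∧
      P = {Y | ∀ j, j ∉ J → ∃ a : K, a ≠ 0 ∧ ∀ b, Y (j, b) = a * X (j, b)}}.Finite

/-- The coordinates `x_b` of the point `X = (x_1, …, x_r)`. -/
def block {R : Type} {r : ℕ} {m : Fin r → ℕ} (X : (Σ b, Fin (m b)) × Fin 2 → R) (b : Fin r) :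
    Fin (m b) × Fin 2 → R := fun p => X (⟨b, p.1⟩, p.2)

/-- The product `e F_1(x_1) ⋯ F_r(x_r)`. -/
noncomputable def product {K : Type} [Field K] {r : ℕ} {m : Fin r → ℕ} (e : K)
    (F : ∀ b : Fin r, MvPolynomial (Fin (m b) × Fin 2) K) :
    MvPolynomial ((Σ b, Fin (m b)) × Fin 2) K :=
  C e * ∏ b, rename (fun p : Fin (m b) × Fin 2 => ((⟨b, p.1⟩ : Σ b, Fin (m b)), p.2)) (F b)

/-- The forms `F_b` as forms over `L`. -/
noncomputable def extend {K : Type} [Field K] (L : Type) [Field L] [Algebra K L] {r : ℕ}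
    {m : Fin r → ℕ} (F : ∀ b : Fin r, MvPolynomial (Fin (m b) × Fin 2) K) (b : Fin r) :
    MvPolynomial (Fin (m b) × Fin 2) L := map (algebraMap K L) (F b)

/-- The point `x` over `L` is not over a point in `T`, for any embedding of `L`, and it is not on a
special plane of `F`. -/
def General {K L : Type} [Field K] [Field L] [Algebra K L] {n : ℕ}
    (T : Set (Fin n × Fin 2 → AlgebraicClosure K)) (F : MvPolynomial (Fin n × Fin 2) L)
    (x : Fin n × Fin 2 → L) : Prop :=
  (∀ φ : L →ₐ[K] AlgebraicClosure K, ∀ t ∈ T, ∀ a : Fin n → AlgebraicClosure K,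
    (fun p => φ (x p)) ≠ fun p => a p.1 * t p) ∧
  ∀ J : Finset (Fin n), J.Nonempty → J ≠ Finset.univ → ¬ Special F x J

/-- The divisor `F = 0` in `(ℙ¹)ⁿ` has only finitely many `K`-points. -/
def FewPoints {K : Type} [Field K] {n : ℕ} (F : MvPolynomial (Fin n × Fin 2) K) : Prop :=
  ∃ B : Finset (Fin n × Fin 2 → K), ∀ X, IsPoint X → eval X F = 0 →
    ∃ t ∈ B, ∃ a : Fin n → K, X = fun p => a p.1 * t p

/-- The ideal of the local Zariski closure at the point `(w, x)` of the set of the `K`-points of the
double cover `w² = F(x)`: it consists of the polynomials in the coordinates (the variable `none` is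
`w`) which vanish at all coordinate vectors `((∏ a_j)² W, a_j X_j)`, `a_j ∈ K`, of the `K`-points in
some neighbourhood of `(w, x)`. -/
def localIdeal {K M ι : Type} [Fintype ι] [Field K] [NontriviallyNormedField M] (σ : K →+* M)
    (F : MvPolynomial (ι × Fin 2) K) (w : M) (x : ι × Fin 2 → M) :
    Set (MvPolynomial (Option (ι × Fin 2)) K) :=
  {g | ∃ U ∈ nhds (w, x), ∀ (W : K) (X : ι × Fin 2 → K), IsPoint X → W ^ 2 = eval X F →
    (∃ a : ι → M, (∀ j, a j ≠ 0) ∧
      ((∏ j, a j) ^ 2 * σ W, fun p => a p.1 * σ (X p)) ∈ U) →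
    ∀ a : ι → K, eval (fun o => o.elim ((∏ j, a j) ^ 2 * W) fun p => a p.1 * X p) g = 0}

/-- The ideals of the local Zariski closures at the points `(w, x)` over `M` of the double cover
`w² = F(x)` with the property `P w`. -/
def localIdeals {K M ι : Type} [Fintype ι] [Field K] [NontriviallyNormedField M] (σ : K →+* M)
    (F : MvPolynomial (ι × Fin 2) K) (P : M → Prop) :
    Set (Set (MvPolynomial (Option (ι × Fin 2)) K)) :=
  {J | ∃ (w : M) (x : ι × Fin 2 → M), P w ∧ IsPoint x ∧ w ^ 2 = eval₂ σ x F ∧
    J = localIdeal σ F w x}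

/-- The ideals of the local Zariski closures of the set of the `K`-points of the divisor `F = 0` in
`(ℙ¹)ⁿ` at its points `x` over `M`. -/
def branchIdeals {K M : Type} [Field K] [NontriviallyNormedField M] {n : ℕ} (σ : K →+* M)
    (F : MvPolynomial (Fin n × Fin 2) K) : Set (Set (MvPolynomial (Fin n × Fin 2) K)) :=
  {J | ∃ x : Fin n × Fin 2 → M, IsPoint x ∧ eval₂ σ x F = 0 ∧
    J = {g | ∃ U ∈ nhds x, ∀ X : Fin n × Fin 2 → K, IsPoint X → eval X F = 0 →
      (∃ a : Fin n → M, (∀ j, a j ≠ 0) ∧ (fun p => a p.1 * σ (X p)) ∈ U) →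
      ∀ a : Fin n → K, eval (fun p => a p.1 * X p) g = 0}}

open Pool.Agent.Q35.TT (Hom4 SmoothF FinSpecF)
open Pool.Agent.U199.TW

lemma hom_C_mul {K ι : Type} [Field K] {F : MvPolynomial (ι × Fin 2) K} (e : K)
    (X : ι × Fin 2 → K) (a : ι → K) (c : K)
    (h : eval (fun p => a p.1 * X p) F = c * eval X F) :
    eval (fun p => a p.1 * X p) (C e * F) = c * eval X (C e * F) := by
  rw [map_mul, map_mul, eval_C, eval_C, h]
  ring

/-- The polynomials in the ideal of `X_e` vanish at its points. -/
lemma mem_local {K M ι : Type} [Fintype ι] [Field K] [NontriviallyNormedField M]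
    (σ : K →+* M) (F : MvPolynomial (ι × Fin 2) K)
    (hF : ∀ (X : ι × Fin 2 → K) (a : ι → K), eval (fun p => a p.1 * X p) F =
      (∏ j, a j) ^ 4 * eval X F) (w : M) (x : ι × Fin 2 → M)
    (g : MvPolynomial (Option (ι × Fin 2)) K)
    (hg : (X none ^ 2 - rename some F) ∣ g) : g ∈ localIdeal σ F w x := by
  refine ⟨Set.univ, Filter.univ_mem, ?_⟩
  intro W Y _ hW _ a
  obtain ⟨h, rfl⟩ := hg
  have h1 := hF Y a
  rw [map_mul, map_sub, map_pow, eval_X, eval_rename]
  have h2 : (fun o : Option (ι × Fin 2) =>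
      o.elim ((∏ j, a j) ^ 2 * W) fun p => a p.1 * Y p) ∘ some = fun p => a p.1 * Y p := by
    funext p
    rfl
  rw [h2, h1]
  simp only [Option.elim_none]
  rw [mul_pow, hW]
  ring

/-- Two nonzero vectors of length two with vanishing determinant are proportional. -/
lemma prop_of {M : Type} [Field M] {u v : Fin 2 → M} (hu : ∃ b, u b ≠ 0) (hv : ∃ b, v b ≠ 0)
    (h : u 0 * v 1 = u 1 * v 0) : ∃ a : M, a ≠ 0 ∧ ∀ b, a * v b = u b := by
  by_cases h0 : v 0 = 0
  · have h1 : v 1 ≠ 0 := by
      obtain ⟨b, hb⟩ := hv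
      fin_cases b
      · exact absurd h0 hb
      · exact hb
    have hu0 : u 0 = 0 := by
      rw [h0, mul_zero] at h
      exact (mul_eq_zero.1 h).resolve_right h1
    have hu1 : u 1 ≠ 0 := by
      obtain ⟨b, hb⟩ := hu
      fin_cases b
      · exact absurd hu0 hb
      · exact hb
    refine ⟨u 1 / v 1, div_ne_zero hu1 h1, fun b => ?_⟩
    fin_cases b
    · simp [h0, hu0]
    · simp [div_mul_cancel₀ _ h1]
  · have hu0 : u 0 ≠ 0 := by
      intro hu0
      rw [hu0, zero_mul] at h
      have hu1 : u 1 = 0 := (mul_eq_zero.1 h.symm).resolve_right h0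
      obtain ⟨b, hb⟩ := hu
      fin_cases b
      · exact hb hu0
      · exact hb hu1
    refine ⟨u 0 / v 0, div_ne_zero hu0 h0, fun b => ?_⟩
    fin_cases b
    · simp [div_mul_cancel₀ _ h0]
    · show u 0 / v 0 * v 1 = u 1
      field_simp
      linear_combination h

/-- Finitely many points have finitely many local Zariski closures. -/
lemma branch_fin {K M : Type} [Field K] [NontriviallyNormedField M] {n : ℕ} (σ : K →+* M)
    (F : MvPolynomial (Fin n × Fin 2) K) (B : Finset (Fin n × Fin 2 → K))
    (hB : ∀ Y, IsPoint Y → eval Y F = 0 → ∃ t ∈ B, ∃ c : Fin n → K, Y = fun p => c p.1 * t p) :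
    (branchIdeals σ F).Finite := by
  classical
  let I : Set (Fin n × Fin 2 → K) → Set (MvPolynomial (Fin n × Fin 2) K) :=
    fun S => {g | ∀ Y, IsPoint Y → eval Y F = 0 → ∀ t ∈ S, ∀ c : Fin n → K,
      (Y = fun p => c p.1 * t p) → ∀ a : Fin n → K, eval (fun p => a p.1 * Y p) g = 0}
  refine ((B.finite_toSet.finite_subsets).image I).subset ?_
  rintro J ⟨x, hx, -, rfl⟩
  let S : Set (Fin n × Fin 2 → K) :=
    {t | t ∈ B ∧ ∀ j, x (j, 0) * σ (t (j, 1)) = x (j, 1) * σ (t (j, 0))}
  refine ⟨S, fun t ht => ht.1, ?_⟩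
  ext g
  constructor
  · intro hg
    refine ⟨{y | ∀ t ∈ B, t ∉ S → ∃ j, y (j, 0) * σ (t (j, 1)) ≠ y (j, 1) * σ (t (j, 0))}, ?_, ?_⟩
    · rw [Set.ofPred_forall]
      simp only [Set.ofPred_forall]
      refine (Filter.biInter_finset_mem B).2 fun t ht => ?_
      by_cases htS : t ∈ S
      · simp [htS]
      · have h1 : ∃ j, x (j, 0) * σ (t (j, 1)) ≠ x (j, 1) * σ (t (j, 0)) := by
          by_contra hcon
          push Not at hcon
          exact htS ⟨ht, hcon⟩
        obtain ⟨j, hj⟩ := h1
        have h2 : IsOpen {y : Fin n × Fin 2 → M |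
            y (j, 0) * σ (t (j, 1)) ≠ y (j, 1) * σ (t (j, 0))} :=
          isOpen_ne_fun (by fun_prop) (by fun_prop)
        refine Filter.mem_of_superset (h2.mem_nhds hj) fun y hy => ?_
        simp only [Set.mem_iInter]
        intro _
        exact ⟨j, hy⟩
    · intro Y hY hYF ha a
      obtain ⟨b, hb, hbU⟩ := ha
      obtain ⟨t, ht, c, hc⟩ := hB Y hY hYF
      by_cases htS : t ∈ S
      · exact hg Y hY hYF t htS c hc a
      · obtain ⟨j, hj⟩ := hbU t ht htS
        refine absurd ?_ hj
        simp only [hc, map_mul]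
        ring
  · rintro ⟨U, hU, hg⟩ Y hY hYF t ht c hc a
    refine hg Y hY hYF ?_ a
    have h1 : ∀ j, ∃ b : M, b ≠ 0 ∧ ∀ i, b * σ (Y (j, i)) = x (j, i) := by
      intro j
      refine prop_of (u := fun i => x (j, i)) (v := fun i => σ (Y (j, i))) (hx j) ?_ ?_
      · obtain ⟨b, hb⟩ := hY j
        exact ⟨b, (map_ne_zero σ).2 hb⟩
      · have h2 := ht.2 j
        simp only [hc, map_mul]
        linear_combination σ (c j) * h2
    choose b hb hb' using h1
    refine ⟨b, hb, ?_⟩
    have h2 : (fun p : Fin n × Fin 2 => b p.1 * σ (Y p)) = x := by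
      funext p
      exact hb' p.1 p.2
    rw [h2]
    exact mem_of_mem_nhds hU

/-- A binary quartic form which is not zero has finitely many zeros. -/
lemma fin_one {K : Type} [Field K] [CharZero K] (F : MvPolynomial (Fin 1 × Fin 2) K)
    (hF : IsForm F) (hs : Smooth F) : FewPoints F := by
  classical
  have : Infinite K := CharZero.infinite K
  have hsc := (Pool.Agent.Q182.TT.CHF.chf K 1 F hF (fun _ => 0)).2.2.2.2.2.1
  let v : K → Fin 1 × Fin 2 → K := fun z p => if p.2 = 0 then 1 else z
  let p : Polynomial K := aeval (fun q : Fin 1 × Fin 2 => if q.2 = 0 then 1 else Polynomial.X) F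
  have hp : ∀ z : K, p.eval z = eval (v z) F := by
    intro z
    have h1 : ((Polynomial.evalRingHom z).comp
        ((aeval (fun q : Fin 1 × Fin 2 => if q.2 = 0 then 1 else Polynomial.X) :
          MvPolynomial (Fin 1 × Fin 2) K →ₐ[K] Polynomial K) : _ →+* _)) = eval (v z) := by
      apply MvPolynomial.ringHom_ext
      · intro s
        simp
      · intro q
        by_cases hq : q.2 = 0
        · simp [hq, v]
        · simp [hq, v]
    exact congrArg (fun φ => φ F) h1
  have hscale : ∀ X : Fin 1 × Fin 2 → K, X (0, 0) ≠ 0 →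
      X = fun q => (fun _ : Fin 1 => X (0, 0)) q.1 * v (X (0, 1) / X (0, 0)) q := by
    intro X hX
    funext q
    obtain ⟨i, c⟩ := q
    fin_cases i
    fin_cases c
    · simp [v]
    · simp [v, mul_div_cancel₀ _ hX]
  have key : ∀ X : Fin 1 × Fin 2 → K, X (0, 0) ≠ 0 →
      eval X F = X (0, 0) ^ 4 * p.eval (X (0, 1) / X (0, 0)) := by
    intro X hX
    have h3 := hsc (v (X (0, 1) / X (0, 0))) (fun _ => X (0, 0))
    rw [← hscale X hX, ← hp] at h3
    simpa using h3
  have hp0 : p ≠ 0 := by
    intro h0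
    have hF0 : F = 0 := by
      refine vanish (fun _ => 0) fun X hX => ?_
      rw [key X (hX 0), h0, Polynomial.eval_zero, mul_zero]
    obtain ⟨q, hq⟩ := hs (fun _ => 1) fun j => ⟨0, one_ne_zero⟩
    rw [hF0, map_zero, map_zero] at hq
    exact hq rfl
  refine ⟨insert (fun q => if q.2 = 0 then 0 else 1) (p.roots.toFinset.image v), ?_⟩
  intro X hX hXF
  by_cases h0 : X (0, 0) = 0
  · refine ⟨_, Finset.mem_insert_self _ _, fun _ => X (0, 1), ?_⟩
    funext q
    obtain ⟨i, c⟩ := q
    fin_cases i
    fin_cases c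
    · simp [h0]
    · simp
  · refine ⟨v (X (0, 1) / X (0, 0)), Finset.mem_insert_of_mem (Finset.mem_image.2
      ⟨X (0, 1) / X (0, 0), ?_, rfl⟩), fun _ => X (0, 0), hscale X h0⟩
    rw [Multiset.mem_toFinset, Polynomial.mem_roots hp0]
    show p.eval _ = 0
    rw [key X h0] at hXF
    exact (mul_eq_zero.1 hXF).resolve_left (pow_ne_zero _ h0)

lemma fin_one' {K : Type} [Field K] [CharZero K] {n : ℕ} (hn : n = 1)
    (F : MvPolynomial (Fin n × Fin 2) K) (hF : IsForm F) (hs : Smooth F) : FewPoints F := by
  subst hn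
  exact fin_one F hF hs

/-- **Mazur's question for Borcea–Voisin threefolds and other twisted products.** -/
theorem result (K : Type) [Field K] [NumberField K] (r : ℕ) (hr : 0 < r) (m : Fin r → ℕ)
    (F : ∀ b : Fin r, MvPolynomial (Fin (m b) × Fin 2) K) (hF : ∀ b, IsForm (F b))
    (hs : ∀ b, Smooth (F b)) :
    -- (1) finite sets for all extensions of bounded degree, all twists and all places
    (∀ D : ℕ, ∃ T : ∀ b : Fin r, Set (Fin (m b) × Fin 2 → AlgebraicClosure K),
      (∀ b, (T b).Finite) ∧
      ∀ (L : Type) [Field L] [NumberField L] [Algebra K L], Module.finrank K L ≤ D →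
      (∀ b, m b ≤ 2 ∨ FewSpecial (extend L F b)) → ∀ e : L, e ≠ 0 →
      ∀ (M : Type) [NontriviallyNormedField M] [CompleteSpace M] (σ : L →+* M), DenseRange σ →
      ∀ (W : L) (X : (Σ b, Fin (m b)) × Fin 2 → L), IsPoint X → W ≠ 0 →
        W ^ 2 = eval X (product e (extend L F)) →
        (∀ b, General (T b) (extend L F b) (block X b)) →
        localIdeal σ (product e (extend L F)) (σ W) (fun p => σ (X p)) =
          {g | MvPolynomial.X none ^ 2 - rename some (product e (extend L F)) ∣ g}) ∧
    -- all twists and all places of `K`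
    ((∀ b, m b ≤ 2 ∨ FewSpecial (F b)) → ∀ e : K, e ≠ 0 →
      ∀ (M : Type) [NontriviallyNormedField M] [CompleteSpace M] (σ : K →+* M), DenseRange σ →
      -- (2) the points with nonzero `w`
      (localIdeals σ (product e F) (fun w => w ≠ 0)).Finite ∧
      -- (3) reduction to the divisors `F_b = 0` with `m_b ≥ 2`
      ((∀ b, 2 ≤ m b → (branchIdeals σ (F b)).Finite) →
        (localIdeals σ (product e F) (fun _ => True)).Finite) ∧
      -- (4) all points, if the divisors `F_b = 0` with `m_b ≥ 2` have finitely many `K`-points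
      ((∀ b, 2 ≤ m b → FewPoints (F b)) →
        (localIdeals σ (product e F) (fun _ => True)).Finite)) := by
  constructor
  · intro D
    obtain ⟨T, hT, h⟩ := all_ext hr F hF hs D
    refine ⟨T, hT, ?_⟩
    intro L _ _ _ hL hn e he M _ _ σ hσ W X hX hW hWX hXT
    have : Algebra.IsAlgebraic K L := by
      have : FiniteDimensional K L := Module.Finite.of_restrictScalars_finite ℚ K L
      infer_instance
    have h4 := fun b => (Pool.Agent.Q35.TB.exf2 K L (m b) (F b) (hF b)).1
    have h5 := fun b => (Pool.Agent.Q35.TB.exf2 K L (m b) (F b) (hF b)).2.1.1 (hs b)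
    have hfin := fun b => fs_of _ (h4 b) (h5 b) (hn b)
    have h6 := h L hL hfin e he M σ hσ W X hX hW hWX (fun b => (hXT b).1) fun b => (hXT b).2
    refine Set.Subset.antisymm (fun g hg => h6 g hg) fun g hg => ?_
    exact mem_local σ _ (fun X a => hom_C_mul e X a _ (prodF_scale h4 X a)) _ _ g hg
  · intro hn e he M _ _ σ hσ
    have hfin := fun b => fs_of _ (hF b) (hs b) (hn b)
    obtain ⟨h1, h2⟩ := fin_all hF hs hfin he σ hσ
    have h2' : (∀ b, 2 ≤ m b → (branchIdeals σ (F b)).Finite) →
        (localIdeals σ (product e F) (fun _ => True)).Finite := by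
      intro hB
      refine (h2 fun b => ?_).subset ?_
      · have hb : (branchIdeals σ (F b)).Finite := by
          by_cases h : 2 ≤ m b
          · exact hB b h
          · have h3 := Fin.pos_iff_nonempty.2 (pos_of_smooth (F b) (hs b))
            obtain ⟨B, hB⟩ := fin_one' (by omega) (F b) (hF b) (hs b)
            exact branch_fin σ (F b) B hB
        exact hb
      · rintro _ ⟨w, x, -, hx, hwx, rfl⟩
        exact ⟨w, x, hx, hwx, rfl⟩
    refine ⟨?_, h2', ?_⟩
    · refine h1.subset ?_
      rintro _ ⟨w, x, hw, -, hwx, rfl⟩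
      exact ⟨w, x, hw, hwx, rfl⟩
    · intro hB
      refine h2' fun b hb => ?_
      obtain ⟨B, hB⟩ := hB b hb
      exact branch_fin σ (F b) B hB

end Pool.Agent.Results.MP_f9f755_nt.TwistedProducts
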